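import Pool.Agent.Lib.MP_940d9d_mp.Final

/-!
Pattern Sturmian potentials with point spectrum.

For every coupling constant `lam ≠ 0` there is a pattern Sturmian sequence `x` (recurrent, with
pattern complexity `p*(n) = 2 n`) whose discrete Schroedinger operator
`(H ψ)(m) = ψ(m+1) + ψ(m-1) + lam x(m) ψ(m)` on `ℓ²(ℤ)` has an eigenvalue.
-/

open Pool.Agent.Lib.MP_940d9d_mp

namespace Pool.Agent.Results.MP_940d9d_mp.PointSpectrum

/-- For every real `lam ≠ 0` there are a pattern Sturmian sequence `x : ℤ → {0, 1}`, a real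
number `E` and a nonzero `ψ ∈ ℓ²(ℤ)` with `ψ(m+1) + ψ(m-1) + lam x(m) ψ(m) = E ψ(m)` for
all `m`. -/
theorem result (lam : ℝ) (hlam : lam ≠ 0) :
    ∃ x : ℤ → Fin 2, PatternSturmian x ∧
      ∃ (E : ℝ) (ψ : ℤ → ℂ), ψ ≠ 0 ∧ Summable (fun m => ‖ψ m‖ ^ 2) ∧
        ∀ m : ℤ, ψ (m + 1) + ψ (m - 1) + (lam : ℂ) * ((x m : ℕ) : ℂ) * ψ m = (E : ℂ) * ψ m :=
  main_fun lam hlam

end Pool.Agent.Results.MP_940d9d_mp.PointSpectrum
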